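import Pool.Agent.W443.J6.Stms

/-! Two univariate contradictions. -/

set_option autoImplicit false

open Polynomial Pool.Agent.W443.J6

namespace Pool.Agent.W103.J6

universe u

variable {k : Type u} [Field k]

theorem cancel {P φ : Polynomial k} (hP : P ≠ 0) {κ : k} (hκ : κ ≠ 0) {a : ℕ} (ha : 1 ≤ a)
    {D w : ℤ} (h : OD D w (C κ * P ^ a) φ) :
    C (D : k) * P * derivative φ - C ((w : k) * (a : k)) * derivative P * φ = P := by
  obtain ⟨m, rfl⟩ : ∃ m, a = m + 1 := ⟨a - 1, by omega⟩
  unfold OD at h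
  rw [derivative_C_mul, derivative_pow, Nat.add_sub_cancel] at h
  have hne : C κ * P ^ m ≠ 0 := mul_ne_zero (C_ne_zero.2 hκ) (pow_ne_zero _ hP)
  apply mul_left_cancel₀ hne
  rw [C_mul]
  linear_combination h

theorem factor_dvd {x y : k} (hxy : x ≠ y) {φ : Polynomial k} (hx : φ.eval x = 0)
    (hy : φ.eval y = 0) : (X - C x) * (X - C y) ∣ φ := by
  apply IsCoprime.mul_dvd
  · apply isCoprime_X_sub_C_of_isUnit_sub
    exact (sub_ne_zero.2 hxy).isUnit
  · exact dvd_iff_isRoot.2 hx
  · exact dvd_iff_isRoot.2 hy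

theorem u1 : S_U1.{u} := by
  intro k _ _ _ a p r κ φ ha hκ h
  by_contra hne
  obtain ⟨d, hd⟩ := IsAlgClosed.exists_pow_nat_eq (p ^ 2 - 4 * r) (n := 2) (by norm_num)
  have hd0 : d ≠ 0 := by
    rintro rfl
    apply hne
    linear_combination -hd
  have h2 : (2 : k) ≠ 0 := two_ne_zero
  have ha0 : (a : k) ≠ 0 := Nat.cast_ne_zero.2 (by omega)
  set x : k := (-p + d) / 2 with hx
  set y : k := (-p - d) / 2 with hy
  have hx2 : 2 * x = -p + d := by rw [hx]; field_simp
  have hy2 : 2 * y = -p - d := by rw [hy]; field_simp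
  have hxy : x ≠ y := by
    intro he
    apply hd0
    have : 2 * x = 2 * y := by rw [he]
    rw [hx2, hy2] at this
    have h3 : 2 * d = 0 := by linear_combination this
    exact (mul_eq_zero.1 h3).resolve_left h2
  have hP : (X ^ 2 + C p * X + C r : Polynomial k) = (X - C x) * (X - C y) := by
    have e1 : p = -(x + y) := by
      have : 2 * p = 2 * (-(x + y)) := by linear_combination -hx2 - hy2
      exact mul_left_cancel₀ h2 this
    have e2 : r = x * y := by
      have h4 : (4 : k) ≠ 0 := by norm_num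
      have : 4 * r = 4 * (x * y) := by
        have : 4 * (x * y) = (2 * x) * (2 * y) := by ring
        rw [this, hx2, hy2]
        linear_combination hd
      exact mul_left_cancel₀ h4 this
    rw [e1, e2]
    simp only [map_neg, map_add, map_mul]
    ring
  have hP0 : (X ^ 2 + C p * X + C r : Polynomial k) ≠ 0 := by
    rw [hP]
    exact mul_ne_zero (X_sub_C_ne_zero x) (X_sub_C_ne_zero y)
  have h1 := cancel hP0 hκ ha h
  have hder : derivative (X ^ 2 + C p * X + C r : Polynomial k) = C 2 * X + C p := by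
    rw [derivative_add, derivative_add, derivative_X_pow, derivative_C_mul, derivative_X,
      derivative_C]
    simp
  have hev : ∀ z : k, (X ^ 2 + C p * X + C r : Polynomial k).eval z = 0 → 2 * z + p ≠ 0 →
      φ.eval z = 0 := by
    intro z hz hz2
    have h5 := congrArg (Polynomial.eval z) h1
    rw [hder] at h5
    simp only [eval_sub, eval_mul, eval_C, hz, mul_zero, zero_mul, zero_sub, neg_eq_zero] at h5
    have h6 : (((1 : ℤ) : k) * (a : k)) ≠ 0 := by
      rw [Int.cast_one, one_mul]; exact ha0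
    have h7 : (C 2 * X + C p : Polynomial k).eval z = 2 * z + p := by simp
    rw [h7] at h5
    rcases mul_eq_zero.1 h5 with h5 | h5
    · rcases mul_eq_zero.1 h5 with h5 | h5
      · exact absurd h5 h6
      · exact absurd h5 hz2
    · exact h5
  have hPx : (X ^ 2 + C p * X + C r : Polynomial k).eval x = 0 := by rw [hP]; simp
  have hPy : (X ^ 2 + C p * X + C r : Polynomial k).eval y = 0 := by rw [hP]; simp
  have hφx : φ.eval x = 0 := by
    apply hev x hPx
    intro h8
    apply hd0
    linear_combination h8 - hx2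
  have hφy : φ.eval y = 0 := by
    apply hev y hPy
    intro h8
    apply hd0
    linear_combination -h8 + hy2
  have hdvd := factor_dvd hxy hφx hφy
  rw [← hP] at hdvd
  obtain ⟨ψ, hψ⟩ := hdvd
  rw [hψ, derivative_mul] at h1
  have h9 : C (a : k) * (X ^ 2 + C p * X + C r) * derivative ψ = 1 := by
    apply mul_left_cancel₀ hP0
    have e3 : C (((a : ℤ)) : k) = (C (a : k) : Polynomial k) := by rw [Int.cast_natCast]
    rw [e3, Int.cast_one, one_mul] at h1
    linear_combination h1
  have h10 := congrArg (Polynomial.eval x) h9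
  rw [eval_mul, eval_mul, hPx] at h10
  simp at h10

theorem u2 : S_U2.{u} := by
  intro k _ _ _ a r κ φ ha hκ hr h
  obtain ⟨d, hd⟩ := IsAlgClosed.exists_pow_nat_eq (-r) (n := 2) (by norm_num)
  have hd0 : d ≠ 0 := by
    rintro rfl
    apply hr
    linear_combination hd
  have h2 : (2 : k) ≠ 0 := two_ne_zero
  have ha0 : (a : k) ≠ 0 := Nat.cast_ne_zero.2 (by omega)
  have hxy : d ≠ -d := by
    intro he
    apply hd0
    have h3 : 2 * d = 0 := by linear_combination he
    exact (mul_eq_zero.1 h3).resolve_left h2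
  have hP : (X ^ 2 + C r : Polynomial k) = (X - C d) * (X - C (-d)) := by
    have e2 : r = -(d * d) := by linear_combination hd
    rw [e2]
    simp only [map_neg, map_mul]
    ring
  have hP0 : (X ^ 2 + C r : Polynomial k) ≠ 0 := by
    rw [hP]
    exact mul_ne_zero (X_sub_C_ne_zero d) (X_sub_C_ne_zero (-d))
  have h1 := cancel hP0 hκ ha h
  have hder : derivative (X ^ 2 + C r : Polynomial k) = C 2 * X := by
    rw [derivative_add, derivative_X_pow, derivative_C]
    simp
  have hev : ∀ z : k, (X ^ 2 + C r : Polynomial k).eval z = 0 → z ≠ 0 →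
      φ.eval z = 0 := by
    intro z hz hz2
    have h5 := congrArg (Polynomial.eval z) h1
    rw [hder] at h5
    simp only [eval_sub, eval_mul, eval_C, eval_X, hz, mul_zero, zero_mul, zero_sub,
      neg_eq_zero] at h5
    have h6 : (((3 : ℤ) : k) * (a : k)) ≠ 0 := by
      apply mul_ne_zero _ ha0
      norm_num
    rcases mul_eq_zero.1 h5 with h5 | h5
    · rcases mul_eq_zero.1 h5 with h5 | h5
      · exact absurd h5 h6
      · exact absurd h5 (mul_ne_zero h2 hz2)
    · exact h5
  have hPx : (X ^ 2 + C r : Polynomial k).eval d = 0 := by rw [hP]; simp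
  have hPy : (X ^ 2 + C r : Polynomial k).eval (-d) = 0 := by rw [hP]; simp
  have hdvd := factor_dvd hxy (hev d hPx hd0) (hev (-d) hPy (neg_ne_zero.2 hd0))
  rw [← hP] at hdvd
  obtain ⟨ψ, hψ⟩ := hdvd
  rw [hψ, derivative_mul, hder] at h1
  have h9 : C (a : k) * (C 2 * (X * ψ) + C 4 * (X ^ 2 * derivative ψ) +
      C (4 * r) * derivative ψ) = 1 := by
    apply mul_left_cancel₀ hP0
    have e3 : (C (((4 * (a : ℤ) : ℤ)) : k) : Polynomial k) = 4 * C (a : k) := by
      rw [Int.cast_mul, Int.cast_natCast, C_mul, Int.cast_ofNat]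
      have e7 : (C 4 : Polynomial k) = 4 := map_ofNat C 4
      rw [e7]
    have e4 : (C ((((3 : ℤ) : k)) * (a : k)) : Polynomial k) = 3 * C (a : k) := by
      rw [C_mul, Int.cast_ofNat]
      have e7 : (C 3 : Polynomial k) = 3 := map_ofNat C 3
      rw [e7]
    rw [e3, e4] at h1
    have e5 : (C 4 : Polynomial k) = 4 := map_ofNat C 4
    have e6 : (C 2 : Polynomial k) = 2 := map_ofNat C 2
    rw [e6] at h1
    rw [C_mul, e5, e6]
    linear_combination h1
  have hψ0 : ψ ≠ 0 := by
    rintro rfl
    simp at h9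
  have h10 := congrArg (fun q => Polynomial.coeff q (ψ.natDegree + 1)) h9
  simp only [coeff_C_mul, coeff_add] at h10
  rw [coeff_X_mul, coeff_X_pow_mul', coeff_one, if_neg (Nat.succ_ne_zero _)] at h10
  have h11 : (derivative ψ).coeff (ψ.natDegree + 1) = 0 := by
    rw [coeff_derivative, coeff_eq_zero_of_natDegree_lt (by omega), zero_mul]
  rw [h11, mul_zero, add_zero] at h10
  have h12 : (if 2 ≤ ψ.natDegree + 1 then (derivative ψ).coeff (ψ.natDegree + 1 - 2) else 0) =
      (ψ.natDegree : k) * ψ.coeff ψ.natDegree := by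
    rcases Nat.eq_zero_or_pos ψ.natDegree with h0 | h0
    · rw [h0]; simp
    · obtain ⟨m, hm⟩ : ∃ m, ψ.natDegree = m + 1 := ⟨ψ.natDegree - 1, by omega⟩
      rw [if_pos (by omega), hm]
      have : m + 1 + 1 - 2 = m := by omega
      rw [this, coeff_derivative]
      push_cast
      ring
  rw [h12] at h10
  have hl : ψ.coeff ψ.natDegree ≠ 0 := by
    rw [coeff_natDegree]; exact leadingCoeff_ne_zero.2 hψ0
  have h13 : (a : k) * ((2 + 4 * (ψ.natDegree : k)) * ψ.coeff ψ.natDegree) = 0 := by
    linear_combination h10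
  rcases mul_eq_zero.1 h13 with h | h
  · exact ha0 h
  · rcases mul_eq_zero.1 h with h | h
    · have h14 : ((2 + 4 * ψ.natDegree : ℕ) : k) = 0 := by push_cast; exact h
      rw [Nat.cast_eq_zero] at h14
      omega
    · exact hl h

end Pool.Agent.W103.J6
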